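import Pool.Agent.H12.Cok3

/-! Rank-zero criterion for Cohen–Lenstra limits of Haar matrices with prescribed support. -/

open MeasureTheory Set Filter Topology Pool.Agent.H12.Cok

namespace Pool.Agent.Results.MP_78de02_pr.RankZero

/-- the matrix supported on `σ`: entry `(i, j)` is `x j i` if `i ∈ σ j` and `0` otherwise -/
def X {R : Type} [Zero R] {n : ℕ} (σ : Fin n → Finset (Fin n)) (x : Fin n → Fin n → R) :
    Matrix (Fin n) (Fin n) R :=
  Matrix.of fun i j => if i ∈ σ j then x j i else 0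

/-- the cokernel `R^n / A R^n` -/
abbrev cok {R : Type} [CommRing R] {n : ℕ} (A : Matrix (Fin n) (Fin n) R) : Type :=
  (Fin n → R) ⧸ LinearMap.range A.mulVecLin

/-- law of `n²` independent entries of law `μ` -/
noncomputable def P {R : Type} [MeasurableSpace R] (μ : Measure R) (n : ℕ) :
    Measure (Fin n → Fin n → R) :=
  Measure.pi fun _ : Fin n => Measure.pi fun _ : Fin n => μ

/-- `c_p = ∏_{i ≥ 1} (1 - p^{-i})` -/
noncomputable def cp (p : ℕ) : ℝ := ∏' i : ℕ, (1 - ((p : ℝ) ^ (i + 1))⁻¹)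

/-- the Cohen–Lenstra mass -/
noncomputable def CL (p : ℕ) (G : Type) [AddCommGroup G] : ℝ :=
  (Nat.card (G ≃+ G) : ℝ)⁻¹ * cp p

variable {p : ℕ} [Fact p.Prime]

/-- coordinate projection -/
noncomputable def mask {n : ℕ} (s : Finset (Fin n)) : (Fin n → ℤ_[p]) →ₗ[ℤ_[p]] (Fin n → ℤ_[p]) where
  toFun v i := if i ∈ s then v i else 0
  map_add' a b := by funext i; by_cases h : i ∈ s <;> simp [h]
  map_smul' a b := by funext i; by_cases h : i ∈ s <;> simp [h]

lemma range_X {n : ℕ} (σ : Fin n → Finset (Fin n)) (x : Fin n → Fin n → ℤ_[p]) :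
    LinearMap.range (X σ x).mulVecLin =
      Submodule.span ℤ_[p] (range fun j => mask (σ j) (x j)) := by
  rw [Matrix.range_mulVecLin]
  rfl

lemma det_D {n : ℕ} (σ : Fin n → Finset (Fin n)) :
    {x : Fin n → Fin n → ℤ_[p] | ((X σ x).map PadicInt.toZMod).det ≠ 0} =
      D (ph fun j => mask (σ j)) Finset.univ := by
  ext x
  simp only [mem_ofPred_eq, Ev, and_true, Finset.coe_univ, linearIndepOn_univ_iff]
  rw [← isUnit_iff_ne_zero, ← Matrix.isUnit_iff_isUnit_det,
    ← Matrix.linearIndependent_cols_iff_isUnit]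
  rfl

lemma lin_of_add {A B : Type*} [AddCommGroup A] [AddCommGroup B] [Module ℤ_[p] A] [Module ℤ_[p] B]
    (e : ℕ) (hB : ∀ b : B, (p : ℤ_[p]) ^ e • b = 0) (f : A →+ B) (a : ℤ_[p]) (v : A) :
    f (a • v) = a • f v := by
  obtain ⟨c, hc⟩ := Ideal.mem_span_singleton.1 (PadicInt.appr_spec e a)
  have ha : a = ((a.appr e : ℕ) : ℤ_[p]) + ((p ^ e : ℕ) : ℤ_[p]) * c := by
    push_cast; linear_combination hc
  have h1 : ∀ b : B, (p ^ e : ℕ) • b = 0 := fun b => by
    rw [← Nat.cast_smul_eq_nsmul ℤ_[p]]; push_cast; exact hB b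
  set k := a.appr e
  rw [ha, add_smul, add_smul, mul_smul, mul_smul, Nat.cast_smul_eq_nsmul, Nat.cast_smul_eq_nsmul,
    Nat.cast_smul_eq_nsmul, Nat.cast_smul_eq_nsmul, map_add, map_nsmul, map_nsmul, h1, h1]

/-- additive isomorphisms onto a torsion module are linear -/
noncomputable def equivLin {A B : Type*} [AddCommGroup A] [AddCommGroup B] [Module ℤ_[p] A] [Module ℤ_[p] B]
    (e : ℕ) (hB : ∀ b : B, (p : ℤ_[p]) ^ e • b = 0) : (A ≃+ B) ≃ (A ≃ₗ[ℤ_[p]] B) where
  toFun f := { f with map_smul' := fun a v => lin_of_add e hB f.toAddMonoidHom a v }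
  invFun f := f.toAddEquiv
  left_inv _ := rfl
  right_inv _ := rfl

theorem result (p : ℕ) [Fact p.Prime] [MeasurableSpace ℤ_[p]] [BorelSpace ℤ_[p]]
    (μ : Measure ℤ_[p]) [IsProbabilityMeasure μ] [μ.IsAddHaarMeasure]
    (σ : (n : ℕ) → Fin n → Finset (Fin n)) :
    (∀ (G : Type) [AddCommGroup G] [Finite G], (∃ k : ℕ, Nat.card G = p ^ k) →
      Tendsto (fun n => (P μ n).real {x | Nonempty (cok (X (σ n) x) ≃+ G)}) atTop
        (𝓝 (CL p G))) ↔
    Tendsto (fun n => (P μ n).real {x | ((X (σ n) x).map PadicInt.toZMod).det ≠ 0}) atTop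
      (𝓝 (cp p)) := by
  constructor
  · intro h
    have h1 := h PUnit ⟨0, by simp⟩
    have h2 : CL p PUnit = cp p := by
      simp [CL]
    rw [h2] at h1
    refine h1.congr fun n => ?_
    congr 1
    rw [det_D, ← top_eq_D]
    ext x
    simp only [mem_ofPred_eq, ← range_X, ← Submodule.Quotient.subsingleton_iff]
    constructor
    · rintro ⟨a⟩
      exact a.injective.subsingleton
    · intro hs
      have : Unique (cok (X (σ n) x)) := uniqueOfSubsingleton 0
      exact ⟨AddEquiv.ofUnique⟩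
  · rintro h G _ _ ⟨k, hk⟩
    have h0 : ∀ g : G, (p ^ k) • g = 0 := fun g => by rw [← hk]; exact card_nsmul_eq_zero'
    have : NeZero (p ^ k) := ⟨pow_ne_zero _ (Fact.out : p.Prime).ne_zero⟩
    let _ : Module (ZMod (p ^ k)) G := AddCommGroup.zmodModule h0
    let _ : Module ℤ_[p] G := Module.compHom G (PadicInt.toZModPow k)
    have hG : ∀ g : G, (p : ℤ_[p]) ^ k • g = 0 := fun g => by
      rw [← Nat.cast_pow, Nat.cast_smul_eq_nsmul, h0]
    simp only [det_D] at h
    have h1 := main μ (fun n j => mask (σ n j)) h G k hG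
    rw [← Nat.card_congr (equivLin k hG)] at h1
    refine h1.congr fun n => ?_
    congr 1
    ext x
    simp only [Ck, mem_ofPred_eq]
    rw [← range_X]
    exact (equivLin (A := cok (X (σ n) x)) k hG).symm.nonempty_congr

end Pool.Agent.Results.MP_78de02_pr.RankZero
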